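import Mathlib

/-!
# Independent mutual-visibility colourings of subdivided complete graphs: definitions
-/

set_option autoImplicit false

namespace Pool.Agent.IMV

open SimpleGraph

/-- The subdivision `S(G)`: the vertices are the vertices and the edges of `G`, a vertex is
adjacent to the edges through it. -/
def subdiv {V : Type} (G : SimpleGraph V) : SimpleGraph (V ⊕ G.edgeSet) where
  Adj x y := (∃ v e, x = Sum.inl v ∧ y = Sum.inr e ∧ v ∈ (e : Sym2 V)) ∨
    (∃ v e, x = Sum.inr e ∧ y = Sum.inl v ∧ v ∈ (e : Sym2 V))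
  symm := ⟨by
    rintro x y (⟨v, e, rfl, rfl, h⟩ | ⟨v, e, rfl, rfl, h⟩)
    · exact Or.inr ⟨v, e, rfl, rfl, h⟩
    · exact Or.inl ⟨v, e, rfl, rfl, h⟩⟩
  loopless := ⟨by
    rintro x (⟨v, e, rfl, h, -⟩ | ⟨v, e, rfl, h, -⟩)
    · exact absurd h (by simp)
    · exact absurd h (by simp)⟩

/-- `x` and `y` are `X`-visible: some geodesic between them has no internal vertex in `X`. -/
def Visible {W : Type} (G : SimpleGraph W) (X : Set W) (x y : W) : Prop :=
  ∃ p : G.Walk x y, p.length = G.dist x y ∧ ∀ z ∈ p.support, z ∈ X → z = x ∨ z = y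

/-- Mutual-visibility sets. -/
def IsMV {W : Type} (G : SimpleGraph W) (X : Set W) : Prop :=
  ∀ x ∈ X, ∀ y ∈ X, Visible G X x y

/-- Independent mutual-visibility sets. -/
def IsIMV {W : Type} (G : SimpleGraph W) (X : Set W) : Prop :=
  IsMV G X ∧ ∀ x ∈ X, ∀ y ∈ X, ¬ G.Adj x y

/-- The independent mutual-visibility chromatic number. -/
noncomputable def chiIMV {W : Type} (G : SimpleGraph W) : ℕ :=
  sInf {k | ∃ c : W → Fin k, ∀ i, IsIMV G {v | c v = i}}

/-- The minimum number of parts in a `K_4`-free partition of the edge set of `K_n`. -/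
noncomputable def rho (n : ℕ) : ℕ :=
  sInf {r | ∃ P : (⊤ : SimpleGraph (Fin n)).edgeSet → Fin r,
    ∀ j, (SimpleGraph.fromEdgeSet (Subtype.val '' (P ⁻¹' {j}))).CliqueFree 4}

/-! ### edge colourings as symmetric functions -/

/-- `f` is symmetric and has no monochromatic `K_4`. -/
def Good {V C : Type} (f : V → V → C) : Prop :=
  (∀ u v, f u v = f v u) ∧ ∀ i (w : Fin 4 → V), Function.Injective w →
    ¬ ∀ p q, p ≠ q → f (w p) (w q) = i

/-- The partition of the edges defined by a colouring. -/
theorem partition_of_good {n : ℕ} {r : ℕ} {f : Fin n → Fin n → Fin r} (h : Good f) :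
    ∃ P : (⊤ : SimpleGraph (Fin n)).edgeSet → Fin r,
    ∀ j, (SimpleGraph.fromEdgeSet (Subtype.val '' (P ⁻¹' {j}))).CliqueFree 4 := by
  refine ⟨fun e => Sym2.lift ⟨f, h.1⟩ e.1, fun j s hs => ?_⟩
  let w : Fin 4 → Fin n := s.orderEmbOfFin hs.card_eq
  refine h.2 j w (s.orderEmbOfFin hs.card_eq).injective fun p q hpq => ?_
  have h1 := hs.isClique (Finset.mem_coe.2 (s.orderEmbOfFin_mem hs.card_eq p))
    (Finset.mem_coe.2 (s.orderEmbOfFin_mem hs.card_eq q))
    (fun h => hpq ((s.orderEmbOfFin hs.card_eq).injective h))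
  rw [SimpleGraph.fromEdgeSet_adj] at h1
  obtain ⟨⟨e, he, he'⟩, -⟩ := h1
  have h2 : Sym2.lift ⟨f, h.1⟩ e.1 = j := he
  rw [he'] at h2
  exact h2

/-- The colouring defined by a partition. -/
theorem good_of_partition {n : ℕ} {r : ℕ} (P : (⊤ : SimpleGraph (Fin n)).edgeSet → Fin r)
    (hP : ∀ j, (SimpleGraph.fromEdgeSet (Subtype.val '' (P ⁻¹' {j}))).CliqueFree 4)
    (j : Fin r) (w : Fin 4 → Fin n) (hw : Function.Injective w) :
    ¬ ∀ p q (hpq : p ≠ q), P ⟨s(w p, w q), by
      rw [SimpleGraph.mem_edgeSet]; exact fun h => hpq (hw h)⟩ = j := by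
  intro h
  refine hP j (Finset.univ.image w) ⟨?_, ?_⟩
  · intro x hx y hy hxy
    obtain ⟨p, -, rfl⟩ := Finset.mem_image.1 (Finset.mem_coe.1 hx)
    obtain ⟨q, -, rfl⟩ := Finset.mem_image.1 (Finset.mem_coe.1 hy)
    have hpq : p ≠ q := fun h => hxy (by rw [h])
    rw [SimpleGraph.fromEdgeSet_adj]
    exact ⟨⟨_, h p q hpq, rfl⟩, hxy⟩
  · rw [Finset.card_image_of_injective _ hw]
    rfl

theorem rho_le {n r : ℕ} {f : Fin n → Fin n → Fin r} (h : Good f) : rho n ≤ r :=
  Nat.sInf_le (partition_of_good h)

theorem rho_le' {V : Type} [Fintype V] {r : ℕ} {f : V → V → Fin r} (h : Good f) :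
    rho (Fintype.card V) ≤ r := by
  let e := (Fintype.equivFin V).symm
  refine rho_le (f := fun u v => f (e u) (e v)) ⟨fun u v => h.1 _ _, fun i w hw h' => ?_⟩
  exact h.2 i (fun p => e (w p)) (e.injective.comp hw) h'

theorem rho_mem (n : ℕ) : ∃ P : (⊤ : SimpleGraph (Fin n)).edgeSet → Fin (rho n),
    ∀ j, (SimpleGraph.fromEdgeSet (Subtype.val '' (P ⁻¹' {j}))).CliqueFree 4 := by
  have hne : {r | ∃ P : (⊤ : SimpleGraph (Fin n)).edgeSet → Fin r,
      ∀ j, (SimpleGraph.fromEdgeSet (Subtype.val '' (P ⁻¹' {j}))).CliqueFree 4}.Nonempty := by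
    classical
    refine ⟨Fintype.card (Sym2 (Fin n)), ?_⟩
    let e := Fintype.equivFin (Sym2 (Fin n))
    refine partition_of_good (f := fun u v => e s(u, v)) ⟨fun u v =>
      congrArg e Sym2.eq_swap, fun i w hw h => ?_⟩
    have h1 : e s(w 0, w 1) = e s(w 0, w 2) := (h 0 1 (by decide)).trans (h 0 2 (by decide)).symm
    have h2 := Sym2.congr_right.1 (e.injective h1)
    exact absurd (hw h2) (by decide)
  exact Nat.sInf_mem hne

/-! ### walks in the subdivision -/

section walks

variable {V : Type} {G : SimpleGraph V}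

theorem adj_inl {v : V} {y : V ⊕ G.edgeSet} (h : (subdiv G).Adj (Sum.inl v) y) :
    ∃ e, y = Sum.inr e ∧ v ∈ (e : Sym2 V) := by
  rcases h with ⟨v', e, h1, h2, h3⟩ | ⟨v', e, h1, h2, h3⟩
  · obtain rfl := Sum.inl_injective h1
    exact ⟨e, h2, h3⟩
  · exact absurd h1 (by simp)

theorem adj_inr {e : G.edgeSet} {y : V ⊕ G.edgeSet} (h : (subdiv G).Adj (Sum.inr e) y) :
    ∃ v, y = Sum.inl v ∧ v ∈ (e : Sym2 V) := by
  rcases h with ⟨v', e', h1, h2, h3⟩ | ⟨v', e', h1, h2, h3⟩
  · exact absurd h1 (by simp)
  · obtain rfl := Sum.inr_injective h1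
    exact ⟨v', h2, h3⟩

theorem adj_of_mem {v : V} {e : G.edgeSet} (h : v ∈ (e : Sym2 V)) :
    (subdiv G).Adj (Sum.inl v) (Sum.inr e) := Or.inl ⟨v, e, rfl, rfl, h⟩

theorem adj_of_mem' {v : V} {e : G.edgeSet} (h : v ∈ (e : Sym2 V)) :
    (subdiv G).Adj (Sum.inr e) (Sum.inl v) := Or.inr ⟨v, e, rfl, rfl, h⟩

/-- The walks between two edges. -/
theorem walk_inr {e e' : G.edgeSet} (p : (subdiv G).Walk (Sum.inr e) (Sum.inr e')) :
    e = e' ∨ ((∃ a, a ∈ (e : Sym2 V) ∧ a ∈ (e' : Sym2 V)) ∧ 2 ≤ p.length) ∨
      (4 ≤ p.length ∧ (p.length ≤ 4 → ∃ (a b : V) (e₁ : G.edgeSet), a ∈ (e : Sym2 V) ∧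
        a ∈ (e₁ : Sym2 V) ∧ b ∈ (e₁ : Sym2 V) ∧ b ∈ (e' : Sym2 V) ∧
        (Sum.inr e₁ : V ⊕ G.edgeSet) ∈ p.support)) := by
  cases p with
  | nil => exact Or.inl rfl
  | cons h1 p1 =>
    obtain ⟨a, rfl, ha⟩ := adj_inr h1
    cases p1 with
    | cons h2 p2 =>
      obtain ⟨e1, rfl, he1⟩ := adj_inl h2
      cases p2 with
      | nil =>
        refine Or.inr (Or.inl ⟨⟨a, ha, he1⟩, ?_⟩)
        simp
      | cons h3 p3 =>
        obtain ⟨b, rfl, hb⟩ := adj_inr h3
        cases p3 with
        | cons h4 p4 =>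
          obtain ⟨e2, rfl, he2⟩ := adj_inl h4
          refine Or.inr (Or.inr ⟨?_, fun hle => ?_⟩)
          · simp only [Walk.length_cons]; omega
          · simp only [Walk.length_cons] at hle
            have h5 : p4.length = 0 := by omega
            cases p4 with
            | nil =>
              refine ⟨a, b, e1, ha, he1, hb, he2, ?_⟩
              simp
            | cons h6 p6 => simp at h5

/-- The walks between two vertices. -/
theorem walk_inl {u v : V} (p : (subdiv G).Walk (Sum.inl u) (Sum.inl v)) :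
    u = v ∨ 2 ≤ p.length := by
  cases p with
  | nil => exact Or.inl rfl
  | cons h1 p1 =>
    obtain ⟨e, rfl, he⟩ := adj_inl h1
    cases p1 with
    | cons h2 p2 =>
      right
      simp

theorem length_eq_dist {x y : V ⊕ G.edgeSet} (p : (subdiv G).Walk x y)
    (h : ∀ q : (subdiv G).Walk x y, p.length ≤ q.length) : p.length = (subdiv G).dist x y := by
  refine le_antisymm ?_ (dist_le p)
  obtain ⟨q, hq⟩ := p.reachable.exists_walk_length_eq_dist
  rw [← hq]
  exact h q

end walks

/-! ### colourings of the subdivision of a complete graph -/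

section colour

variable {n : ℕ}

/-- The edge `uv` of `K_n`. -/
def ed {n : ℕ} {u v : Fin n} (h : u ≠ v) : (⊤ : SimpleGraph (Fin n)).edgeSet :=
  ⟨s(u, v), (SimpleGraph.mem_edgeSet _).2 h⟩

/-- The missing-colour form of the colourings. -/
theorem exists_missing' {k : ℕ} (c : Fin n ⊕ (⊤ : SimpleGraph (Fin n)).edgeSet → Fin k)
    (hc : ∀ i, IsIMV (subdiv (⊤ : SimpleGraph (Fin n))) {v | c v = i}) :
    ∃ f : Fin n → Fin n → Fin k, Good f ∧ ∀ u v, u ≠ v → f u v ≠ c (Sum.inl u) := by
  classical
  refine ⟨fun u v => if h : u ≠ v then c (Sum.inr (ed h)) else c (Sum.inl u),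
    ⟨fun u v => ?_, fun i w hw h => ?_⟩, fun u v huv h => ?_⟩
  · by_cases h : u = v
    · rw [h]
    · have h' : v ≠ u := fun h' => h h'.symm
      simp only [dif_pos h, dif_pos h']
      congr 2
      exact Subtype.ext Sym2.eq_swap
  · have key : ∀ p q (hpq : p ≠ q), c (Sum.inr (ed (fun h => hpq (hw h)) :
        (⊤ : SimpleGraph (Fin n)).edgeSet)) = i := by
      intro p q hpq
      have h1 : (if h : w p ≠ w q then c (Sum.inr (ed h)) else c (Sum.inl (w p))) = i := h p q hpq
      rw [dif_pos (fun h => hpq (hw h))] at h1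
      exact h1
    have h01 : w 0 ≠ w 1 := fun h => absurd (hw h) (by decide)
    have h23 : w 2 ≠ w 3 := fun h => absurd (hw h) (by decide)
    obtain ⟨p, hp1, hp2⟩ := (hc i).1 (Sum.inr (ed h01)) (key 0 1 (by decide))
      (Sum.inr (ed h23)) (key 2 3 (by decide))
    -- a walk of length four
    have h12 : w 1 ≠ w 2 := fun h => absurd (hw h) (by decide)
    let q : (subdiv (⊤ : SimpleGraph (Fin n))).Walk (Sum.inr (ed h01)) (Sum.inr (ed h23)) :=
      Walk.cons (adj_of_mem' (v := w 1) (by simp [ed]))
        (Walk.cons (adj_of_mem (e := ed h12) (by simp [ed]))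
          (Walk.cons (adj_of_mem' (v := w 2) (by simp [ed]))
            (Walk.cons (adj_of_mem (e := ed h23) (by simp [ed])) Walk.nil)))
    have hq : p.length ≤ 4 := by
      rw [hp1]
      exact (dist_le q).trans (by simp [q])
    have hmem : ∀ {a : Fin n} {u v : Fin n} (h : u ≠ v), a ∈ ((ed h : (⊤ : SimpleGraph
        (Fin n)).edgeSet) : Sym2 (Fin n)) → a = u ∨ a = v := fun h ha => Sym2.mem_iff.1 ha
    rcases walk_inr p with h1 | ⟨⟨a, ha, ha'⟩, -⟩ | ⟨-, h1⟩
    · have h2 : w 0 ∈ ((ed h23 : (⊤ : SimpleGraph (Fin n)).edgeSet) : Sym2 (Fin n)) := by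
        rw [← h1]; simp [ed]
      rcases hmem h23 h2 with h3 | h3 <;> exact absurd (hw h3) (by decide)
    · rcases hmem h01 ha with rfl | rfl <;> rcases hmem h23 ha' with h3 | h3 <;>
        exact absurd (hw h3) (by decide)
    · obtain ⟨a, b, e₁, ha, ha1, hb1, hb, hs⟩ := h1 hq
      have hab : a ≠ b := by
        rintro rfl
        rcases hmem h01 ha with rfl | rfl <;> rcases hmem h23 hb with h3 | h3 <;>
          exact absurd (hw h3) (by decide)
      obtain ⟨x, hx⟩ : ∃ x : Fin 4, a = w x ∧ (x = 0 ∨ x = 1) := by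
        rcases hmem h01 ha with rfl | rfl
        · exact ⟨0, rfl, Or.inl rfl⟩
        · exact ⟨1, rfl, Or.inr rfl⟩
      obtain ⟨y, hy⟩ : ∃ y : Fin 4, b = w y ∧ (y = 2 ∨ y = 3) := by
        rcases hmem h23 hb with rfl | rfl
        · exact ⟨2, rfl, Or.inl rfl⟩
        · exact ⟨3, rfl, Or.inr rfl⟩
      have hxy : x ≠ y := by
        rintro rfl
        rcases hx.2 with h | h <;> rcases hy.2 with h' | h' <;> rw [h] at h' <;>
          exact absurd h' (by decide)
      have he : e₁ = ed hab := by
        refine Subtype.ext ?_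
        exact (Sym2.mem_and_mem_iff hab).1 ⟨ha1, hb1⟩
      have hci : c (Sum.inr e₁) = i := by
        have h2 := key x y hxy
        rw [he]
        have h3 : (ed hab : (⊤ : SimpleGraph (Fin n)).edgeSet) =
            ed (fun h => hxy (hw h)) := by
          refine Subtype.ext ?_
          change s(a, b) = s(w x, w y)
          rw [hx.1, hy.1]
        rw [h3]
        exact h2
      rcases hp2 _ hs hci with h2 | h2
      · have h3 := Sum.inr_injective h2
        rw [h3] at hb1
        rcases hmem h01 hb1 with h4 | h4 <;> rcases hmem h23 hb with h5 | h5 <;>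
          rw [h4] at h5 <;> exact absurd (hw h5) (by decide)
      · have h3 := Sum.inr_injective h2
        rw [h3] at ha1
        rcases hmem h23 ha1 with h4 | h4 <;> rcases hmem h01 ha with h5 | h5 <;>
          rw [h4] at h5 <;> exact absurd (hw h5) (by decide)
  · simp only [dif_pos huv] at h
    refine (hc (c (Sum.inl u))).2 (Sum.inl u) rfl (Sum.inr (ed huv)) h ?_
    exact adj_of_mem (by simp [ed])

theorem exists_missing {k : ℕ} (c : Fin n ⊕ (⊤ : SimpleGraph (Fin n)).edgeSet → Fin k)
    (hc : ∀ i, IsIMV (subdiv (⊤ : SimpleGraph (Fin n))) {v | c v = i}) :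
    ∃ (f : Fin n → Fin n → Fin k) (m : Fin n → Fin k), Good f ∧ ∀ u v, u ≠ v → f u v ≠ m u := by
  obtain ⟨f, hf⟩ := exists_missing' c hc
  exact ⟨f, fun u => c (Sum.inl u), hf⟩

/-- The upper bound: a new colour for the vertices. -/
theorem exists_colouring (n : ℕ) :
    ∃ c : Fin n ⊕ (⊤ : SimpleGraph (Fin n)).edgeSet → Fin (rho n + 1),
      ∀ i, IsIMV (subdiv (⊤ : SimpleGraph (Fin n))) {v | c v = i} := by
  classical
  obtain ⟨P, hP⟩ := rho_mem n
  refine ⟨Sum.elim (fun _ => Fin.last _) (fun e => (P e).castSucc), fun i => ⟨?_, ?_⟩⟩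
  · rintro (u | e) hu (v | e') hv
    · -- two vertices
      by_cases huv : u = v
      · subst huv
        exact ⟨Walk.nil, length_eq_dist _ (fun q => Nat.zero_le _), fun z hz _ => by
          left; simpa using hz⟩
      · refine ⟨Walk.cons (adj_of_mem (e := ed huv) (by simp [ed]))
          (Walk.cons (adj_of_mem' (v := v) (by simp [ed])) Walk.nil), length_eq_dist _ ?_, ?_⟩
        · intro q
          rcases walk_inl q with h | h
          · exact absurd h huv
          · simpa using h
        · intro z hz hzX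
          simp only [Walk.support_cons, Walk.support_nil, List.mem_cons, List.not_mem_nil,
            or_false] at hz
          rcases hz with rfl | rfl | rfl
          · exact Or.inl rfl
          · exfalso
            have h1 : Fin.last _ = i := hu
            have h2 : (P (ed huv)).castSucc = i := hzX
            rw [← h1] at h2
            exact absurd h2 (Fin.castSucc_ne_last _)
          · exact Or.inr rfl
    · exfalso
      have h1 : Fin.last _ = i := hu
      have h2 : (P e').castSucc = i := hv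
      rw [← h1] at h2
      exact absurd h2 (Fin.castSucc_ne_last _)
    · exfalso
      have h1 : Fin.last _ = i := hv
      have h2 : (P e).castSucc = i := hu
      rw [← h1] at h2
      exact absurd h2 (Fin.castSucc_ne_last _)
    · -- two edges
      have hu' : (P e).castSucc = i := hu
      have hv' : (P e').castSucc = i := hv
      have hnl : ∀ u : Fin n, (Sum.inl u : Fin n ⊕ (⊤ : SimpleGraph (Fin n)).edgeSet) ∉
          {v | Sum.elim (fun _ => Fin.last (rho n)) (fun e => (P e).castSucc) v = i} := by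
        intro u h
        have h1 : Fin.last _ = i := h
        rw [← h1] at hu'
        exact absurd hu' (Fin.castSucc_ne_last _)
      by_cases hee : e = e'
      · subst hee
        exact ⟨Walk.nil, length_eq_dist _ (fun q => Nat.zero_le _), fun z hz _ => by
          left; simpa using hz⟩
      by_cases hsh : ∃ a, a ∈ (e : Sym2 (Fin n)) ∧ a ∈ (e' : Sym2 (Fin n))
      · obtain ⟨a, ha, ha'⟩ := hsh
        refine ⟨Walk.cons (adj_of_mem' ha) (Walk.cons (adj_of_mem ha') Walk.nil),
          length_eq_dist _ ?_, ?_⟩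
        · intro q
          rcases walk_inr q with h | ⟨-, h⟩ | ⟨h, -⟩
          · exact absurd h hee
          · simpa using h
          · simp only [Walk.length_cons, Walk.length_nil]; omega
        · intro z hz hzX
          simp only [Walk.support_cons, Walk.support_nil, List.mem_cons, List.not_mem_nil,
            or_false] at hz
          rcases hz with rfl | rfl | rfl
          · exact Or.inl rfl
          · exact absurd hzX (hnl a)
          · exact Or.inr rfl
      · -- disjoint edges
        obtain ⟨e, he⟩ := e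
        obtain ⟨e', he'⟩ := e'
        induction e using Sym2.ind with
        | _ x₀ x₁ =>
        induction e' using Sym2.ind with
        | _ x₂ x₃ =>
        have hx01 : x₀ ≠ x₁ := (SimpleGraph.mem_edgeSet _).1 he
        have hx23 : x₂ ≠ x₃ := (SimpleGraph.mem_edgeSet _).1 he'
        have hdis : ∀ a, a = x₀ ∨ a = x₁ → ¬ (a = x₂ ∨ a = x₃) := by
          intro a ha ha'
          exact hsh ⟨a, Sym2.mem_iff.2 ha, Sym2.mem_iff.2 ha'⟩
        -- some connecting edge is not in the class
        obtain ⟨a, b, ha, hb, hab⟩ : ∃ a b : Fin n, (a = x₀ ∨ a = x₁) ∧ (b = x₂ ∨ b = x₃) ∧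
            ∀ h : a ≠ b, (P (ed h)).castSucc ≠ i := by
          by_contra hcon
          push Not at hcon
          have hj : ∃ j, i = Fin.castSucc j := ⟨_, hu'.symm⟩
          obtain ⟨j, rfl⟩ := hj
          have h02 : x₀ ≠ x₂ := fun h => hdis x₀ (Or.inl rfl) (Or.inl h)
          have h03 : x₀ ≠ x₃ := fun h => hdis x₀ (Or.inl rfl) (Or.inr h)
          have h12 : x₁ ≠ x₂ := fun h => hdis x₁ (Or.inr rfl) (Or.inl h)
          have h13 : x₁ ≠ x₃ := fun h => hdis x₁ (Or.inr rfl) (Or.inr h)
          obtain ⟨_, e02⟩ := hcon x₀ x₂ (Or.inl rfl) (Or.inl rfl)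
          obtain ⟨_, e03⟩ := hcon x₀ x₃ (Or.inl rfl) (Or.inr rfl)
          obtain ⟨_, e12⟩ := hcon x₁ x₂ (Or.inr rfl) (Or.inl rfl)
          obtain ⟨_, e13⟩ := hcon x₁ x₃ (Or.inr rfl) (Or.inr rfl)
          have c01 : P (ed hx01) = j := Fin.castSucc_injective _ hu'
          have c23 : P (ed hx23) = j := Fin.castSucc_injective _ hv'
          have c02 : P (ed h02) = j := Fin.castSucc_injective _ e02
          have c03 : P (ed h03) = j := Fin.castSucc_injective _ e03
          have c12 : P (ed h12) = j := Fin.castSucc_injective _ e12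
          have c13 : P (ed h13) = j := Fin.castSucc_injective _ e13
          have hsw : ∀ {x y : Fin n} (h : x ≠ y), P (ed h) = j → P (ed h.symm) = j := by
            intro x y h hh
            rw [← hh]
            congr 1
            exact Subtype.ext Sym2.eq_swap
          let w : Fin 4 → Fin n := ![x₀, x₁, x₂, x₃]
          have hw : Function.Injective w := by
            intro p q hpq
            fin_cases p <;> fin_cases q <;> first | rfl | (exfalso; revert hpq; simp [w]; tauto)
          refine good_of_partition P hP j w hw fun p q hpq => ?_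
          fin_cases p <;> fin_cases q <;> first
            | exact absurd rfl hpq
            | exact c01
            | exact c02
            | exact c03
            | exact c12
            | exact c13
            | exact c23
            | exact hsw _ c01
            | exact hsw _ c02
            | exact hsw _ c03
            | exact hsw _ c12
            | exact hsw _ c13
            | exact hsw _ c23
        have hne : a ≠ b := by
          rintro rfl
          exact hdis a ha hb
        refine ⟨Walk.cons (adj_of_mem' (v := a) (Sym2.mem_iff.2 ha))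
          (Walk.cons (adj_of_mem (e := ed hne) (by simp [ed]))
            (Walk.cons (adj_of_mem' (v := b) (by simp [ed]))
              (Walk.cons (adj_of_mem (Sym2.mem_iff.2 hb)) Walk.nil))), length_eq_dist _ ?_, ?_⟩
        · intro q
          rcases walk_inr q with h | ⟨⟨y, hy⟩, -⟩ | ⟨h, -⟩
          · exact absurd h hee
          · exact absurd ⟨y, hy⟩ hsh
          · simpa using h
        · intro z hz hzX
          simp only [Walk.support_cons, Walk.support_nil, List.mem_cons, List.not_mem_nil,
            or_false] at hz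
          rcases hz with rfl | rfl | rfl | rfl | rfl
          · exact Or.inl rfl
          · exact absurd hzX (hnl a)
          · exact absurd hzX (hab hne)
          · exact absurd hzX (hnl b)
          · exact Or.inr rfl
  · rintro (u | e) hu (v | e') hv hadj
    · obtain ⟨e, he, -⟩ := adj_inl hadj
      exact absurd he (by simp)
    · have h1 : Fin.last _ = i := hu
      have h2 : (P e').castSucc = i := hv
      rw [← h1] at h2
      exact absurd h2 (Fin.castSucc_ne_last _)
    · have h1 : Fin.last _ = i := hv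
      have h2 : (P e).castSucc = i := hu
      rw [← h1] at h2
      exact absurd h2 (Fin.castSucc_ne_last _)
    · obtain ⟨e, he, -⟩ := adj_inr hadj
      exact absurd he (by simp)

/-- The value is `ρ(n) + 1` unless there is a missing-colour colouring with `ρ(n)` colours. -/
theorem chi_eq (n : ℕ) (h : ¬ ∃ (f : Fin n → Fin n → Fin (rho n)) (m : Fin n → Fin (rho n)),
    Good f ∧ ∀ u v, u ≠ v → f u v ≠ m u) :
    chiIMV (subdiv (⊤ : SimpleGraph (Fin n))) = rho n + 1 := by
  refine le_antisymm (Nat.sInf_le (exists_colouring n)) ?_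
  have hmem := Nat.sInf_mem (s := {k | ∃ c : Fin n ⊕ (⊤ : SimpleGraph (Fin n)).edgeSet → Fin k,
    ∀ i, IsIMV (subdiv (⊤ : SimpleGraph (Fin n))) {v | c v = i}}) ⟨_, exists_colouring n⟩
  have key : ∀ k : ℕ, (∃ c : Fin n ⊕ (⊤ : SimpleGraph (Fin n)).edgeSet → Fin k,
      ∀ i, IsIMV (subdiv (⊤ : SimpleGraph (Fin n))) {v | c v = i}) → rho n + 1 ≤ k := by
    rintro k ⟨c, hc⟩
    obtain ⟨f, m, hf, hm⟩ := exists_missing c hc
    rcases (rho_le hf).eq_or_lt with h2 | h2
    · subst h2
      exact absurd ⟨f, m, hf, hm⟩ h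
    · exact h2
  exact key _ hmem

end colour

end Pool.Agent.IMV
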