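import Pool.Agent.Lib.MP_9aac7e_co_h49.Basic

/-!
# Missing-colour colourings: blow-up, at most three colours, Ramsey's theorem
-/

set_option autoImplicit false

namespace Pool.Agent.IMV

open SimpleGraph

/-! ### blow-up -/

theorem Good.blowup {V : Type} {k : ℕ} {f : V → V → Fin k} {m : V → Fin k} (hf : Good f)
    (hm : ∀ u v, u ≠ v → f u v ≠ m u) [DecidableEq V] :
    Good (fun x y : V × Fin 3 => if x.1 = y.1 then m x.1 else f x.1 y.1) := by
  refine ⟨fun x y => ?_, fun i w hw h => ?_⟩
  · change (if x.1 = y.1 then m x.1 else f x.1 y.1) = if y.1 = x.1 then m y.1 else f y.1 x.1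
    by_cases hxy : x.1 = y.1
    · rw [if_pos hxy, if_pos hxy.symm, hxy]
    · rw [if_neg hxy, if_neg (fun h => hxy h.symm), hf.1]
  · by_cases hinj : Function.Injective fun p => (w p).1
    · refine hf.2 i (fun p => (w p).1) hinj fun p q hpq => ?_
      have h1 : (if (w p).1 = (w q).1 then m (w p).1 else f (w p).1 (w q).1) = i := h p q hpq
      rw [if_neg (fun h => hpq (hinj h))] at h1
      exact h1
    · -- two of the four points lie over the same vertex
      obtain ⟨p, q, hpq, hne⟩ : ∃ p q, (w p).1 = (w q).1 ∧ p ≠ q := by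
        by_contra hcon
        push Not at hcon
        exact hinj fun p q h => hcon p q h
      have h1 : (if (w p).1 = (w q).1 then m (w p).1 else f (w p).1 (w q).1) = i := h p q hne
      rw [if_pos hpq] at h1
      by_cases hall : ∀ r, (w r).1 = (w p).1
      · -- four points over one vertex
        have hinj2 : Function.Injective fun r => (w r).2 := by
          intro r r' hr
          exact hw (Prod.ext ((hall r).trans (hall r').symm) hr)
        exact absurd (Fintype.card_le_of_injective _ hinj2) (by simp)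
      · push Not at hall
        obtain ⟨r, hr⟩ := hall
        have hpr : p ≠ r := fun h => hr (by rw [h])
        have h2 : (if (w p).1 = (w r).1 then m (w p).1 else f (w p).1 (w r).1) = i := h p r hpr
        rw [if_neg (fun h => hr h.symm)] at h2
        exact hm _ _ (fun h => hr h.symm) (h2.trans h1.symm)

theorem no_missing_of_lt {n : ℕ} (h : rho n < rho (3 * n)) :
    ¬ ∃ (f : Fin n → Fin n → Fin (rho n)) (m : Fin n → Fin (rho n)),
      Good f ∧ ∀ u v, u ≠ v → f u v ≠ m u := by
  rintro ⟨f, m, hf, hm⟩
  have h1 := rho_le' (hf.blowup hm)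
  rw [Fintype.card_prod, Fintype.card_fin, Fintype.card_fin, mul_comm] at h1
  omega

/-! ### three colours -/

/-- A monochromatic triangle inside a class, joined to a vertex outside. -/
theorem no_tri {V : Type} {f : V → V → Fin 3} (hf : Good f) {i : Fin 3} {a b c d : V}
    (hab : a ≠ b) (hac : a ≠ c) (hbc : b ≠ c) (hda : d ≠ a) (hdb : d ≠ b) (hdc : d ≠ c)
    (h1 : f a b = i) (h2 : f a c = i) (h3 : f b c = i) (h4 : f d a = i) (h5 : f d b = i)
    (h6 : f d c = i) : False := by
  refine hf.2 i ![a, b, c, d] ?_ ?_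
  · intro p q hpq
    fin_cases p <;> fin_cases q <;> first
      | rfl
      | exact absurd hpq hab
      | exact absurd hpq hac
      | exact absurd hpq hbc
      | exact absurd hpq.symm hda
      | exact absurd hpq.symm hdb
      | exact absurd hpq.symm hdc
      | exact absurd hpq.symm hab
      | exact absurd hpq.symm hac
      | exact absurd hpq.symm hbc
      | exact absurd hpq hda
      | exact absurd hpq hdb
      | exact absurd hpq hdc
  · intro p q hpq
    fin_cases p <;> fin_cases q <;> first
      | exact absurd rfl hpq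
      | exact h1
      | exact h2
      | exact h3
      | exact h4
      | exact h5
      | exact h6
      | exact (hf.1 _ _).trans h1
      | exact (hf.1 _ _).trans h2
      | exact (hf.1 _ _).trans h3
      | exact (hf.1 _ _).trans h4
      | exact (hf.1 _ _).trans h5
      | exact (hf.1 _ _).trans h6

/-- The third colour. -/
theorem third {a b c x : Fin 3} (hab : a ≠ b) (hac : a ≠ c) (hbc : b ≠ c) (h1 : x ≠ a)
    (h2 : x ≠ b) : x = c := by
  have ha := a.2
  have hb := b.2
  have hc := c.2
  have hx := x.2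
  rw [ne_eq, Fin.ext_iff] at hab hac hbc h1 h2
  rw [Fin.ext_iff]
  omega

theorem three_cases {a b c : Fin 3} (hab : a ≠ b) (hac : a ≠ c) (hbc : b ≠ c) (x : Fin 3) :
    x = a ∨ x = b ∨ x = c := by
  have H : ∀ a b c x : Fin 3, a ≠ b → a ≠ c → b ≠ c → x = a ∨ x = b ∨ x = c := by decide
  exact H a b c x hab hac hbc

theorem two_cases (i : Fin 2) : i = 0 ∨ i = 1 := by
  have H : ∀ i : Fin 2, i = 0 ∨ i = 1 := by decide
  exact H i

theorem other (x y : Fin 3) : ∃ z : Fin 3, z ≠ x ∧ z ≠ y := by
  have H : ∀ x y : Fin 3, ∃ z : Fin 3, z ≠ x ∧ z ≠ y := by decide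
  exact H x y

/-- One class is empty: two colours suffice. -/
theorem two_of_empty {V : Type} {f : V → V → Fin 3} {m : V → Fin 3} (hf : Good f)
    (hm : ∀ u v, u ≠ v → f u v ≠ m u) {j : Fin 3}
    (hempty : ∀ v, m v ≠ j) : ∃ g : V → V → Fin 2, Good g := by
  classical
  have hm' : ∀ u v, u ≠ v → f u v ≠ m v := fun u v h => by
    rw [hf.1]
    exact hm v u h.symm
  refine ⟨fun u v => if f u v = j then 0 else 1, fun u v => by
    change (if f u v = j then (0 : Fin 2) else 1) = if f v u = j then 0 else 1
    rw [hf.1], fun i w hw h => ?_⟩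
  have hi := two_cases i
  rcases hi with rfl | rfl
  · refine hf.2 j w hw fun p q hpq => ?_
    have h1 : (if f (w p) (w q) = j then (0 : Fin 2) else 1) = 0 := h p q hpq
    by_contra h2
    rw [if_neg h2] at h1
    exact absurd h1 (by decide)
  · have hne : ∀ p q, p ≠ q → f (w p) (w q) ≠ j := by
      intro p q hpq h2
      have h1 : (if f (w p) (w q) = j then (0 : Fin 2) else 1) = 1 := h p q hpq
      rw [if_pos h2] at h1
      exact absurd h1 (by decide)
    -- all four points are in the same class
    have hsame : ∀ p q, p ≠ q → m (w p) = m (w q) := by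
      intro p q hpq
      by_contra h2
      have hpq' : w p ≠ w q := fun h => hpq (hw h)
      have h3 := hm _ _ hpq'
      have h4 := hm' _ _ hpq'
      have h5 := hempty (w p)
      have h6 := hempty (w q)
      exact hne p q hpq (third h2 h5 h6 h3 h4)
    have hall : ∀ p, m (w p) = m (w 0) := by
      intro p
      by_cases h : p = 0
      · rw [h]
      · exact hsame p 0 h
    -- the remaining colour
    obtain ⟨c, hc1, hc2⟩ := other j (m (w 0))
    refine hf.2 c w hw fun p q hpq => ?_
    have h3 := hm _ _ (fun h => hpq (hw h) : w p ≠ w q)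
    rw [hall p] at h3
    exact third (hempty (w 0)).symm hc1.symm hc2.symm (hne p q hpq) h3

/-- Among three distinct elements of a class one of the pairs has the colour `z`, unless there is
a monochromatic `K_4`. -/
theorem exists_pair {V : Type} {f : V → V → Fin 3} {m : V → Fin 3} (hf : Good f)
    (hm : ∀ u v, u ≠ v → f u v ≠ m u) {x y z : Fin 3} (hxy : x ≠ y) (hxz : x ≠ z) (hyz : y ≠ z)
    {a b c d : V} (ha : m a = x) (hb : m b = x) (hc : m c = x) (hd : m d = z) (hab : a ≠ b)
    (hac : a ≠ c) (hbc : b ≠ c) : ∃ u v, u ≠ v ∧ m u = x ∧ m v = x ∧ f u v = z := by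
  have hm' : ∀ u v, u ≠ v → f u v ≠ m v := fun u v h => by
    rw [hf.1]
    exact hm v u h.symm
  by_contra hcon
  push Not at hcon
  have key : ∀ u v, u ≠ v → m u = x → m v = x → f u v = y := by
    intro u v huv hu hv
    refine third hxz hxy hyz.symm ?_ (hcon u v huv hu hv)
    rw [← hu]
    exact hm u v huv
  have hd' : ∀ u, m u = x → d ≠ u := by
    rintro u hu rfl
    rw [hd] at hu
    exact hxz hu.symm
  have key2 : ∀ u, m u = x → f d u = y := by
    intro u hu
    have h1 := hm d u (hd' u hu)
    have h2 := hm' d u (hd' u hu)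
    rw [hd] at h1
    rw [hu] at h2
    exact third hxz hxy hyz.symm h2 h1
  exact no_tri hf hab hac hbc (hd' a ha) (hd' b hb) (hd' c hc) (key a b hab ha hb)
    (key a c hac ha hc) (key b c hbc hb hc) (key2 a ha) (key2 b hb) (key2 c hc)

/-- Two classes are small and nonempty. -/
theorem two_of_small {V : Type} {f : V → V → Fin 3} {m : V → Fin 3} (hf : Good f)
    (hm : ∀ u v, u ≠ v → f u v ≠ m u) {j a b : Fin 3} (hja : j ≠ a) (hjb : j ≠ b) (hab : a ≠ b)
    {x y : V} (hx : m x = a) (hy : m y = b)
    (ha : ∀ u v w, m u = a → m v = a → m w = a → u = v ∨ u = w ∨ v = w)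
    (hb : ∀ u v w, m u = b → m v = b → m w = b → u = v ∨ u = w ∨ v = w) :
    ∃ g : V → V → Fin 2, Good g := by
  classical
  have hm' : ∀ u v, u ≠ v → f u v ≠ m v := fun u v h => by
    rw [hf.1]
    exact hm v u h.symm
  let P : V → V → Prop := fun u v =>
    ((m u = j ∨ m v = j) ∧ f u v = a) ∨ (m u = a ∧ m v = a)
  have hPs : ∀ u v, P u v ↔ P v u := by
    intro u v
    change ((m u = j ∨ m v = j) ∧ f u v = a) ∨ (m u = a ∧ m v = a) ↔
      ((m v = j ∨ m u = j) ∧ f v u = a) ∨ (m v = a ∧ m u = a)
    rw [hf.1 u v]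
    tauto
  -- three distinct indices different from two given ones
  refine ⟨fun u v => if P u v then 0 else 1, fun u v => by
    change (if P u v then (0 : Fin 2) else 1) = if P v u then 0 else 1
    simp only [hPs u v], fun i w hw h => ?_⟩
  have hi := two_cases i
  have hcl : ∀ p, m (w p) = j ∨ m (w p) = a ∨ m (w p) = b := fun p => three_cases hja hjb hab _
  have three : ∀ (S : Fin 4 → Prop), (∀ p q, p ≠ q → ¬ S p → ¬ S q → False) →
      ∃ p q r, p ≠ q ∧ p ≠ r ∧ q ≠ r ∧ S p ∧ S q ∧ S r := by
    intro S hS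
    by_cases h0 : S 0
    · by_cases h1 : S 1
      · by_cases h2 : S 2
        · exact ⟨0, 1, 2, by decide, by decide, by decide, h0, h1, h2⟩
        · have h3 : S 3 := by
            by_contra h3
            exact hS 2 3 (by decide) h2 h3
          exact ⟨0, 1, 3, by decide, by decide, by decide, h0, h1, h3⟩
      · have h2 : S 2 := by
          by_contra h2
          exact hS 1 2 (by decide) h1 h2
        have h3 : S 3 := by
          by_contra h3
          exact hS 1 3 (by decide) h1 h3
        exact ⟨0, 2, 3, by decide, by decide, by decide, h0, h2, h3⟩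
    · have h1 : S 1 := by
        by_contra h1
        exact hS 0 1 (by decide) h0 h1
      have h2 : S 2 := by
        by_contra h2
        exact hS 0 2 (by decide) h0 h2
      have h3 : S 3 := by
        by_contra h3
        exact hS 0 3 (by decide) h0 h3
      exact ⟨1, 2, 3, by decide, by decide, by decide, h1, h2, h3⟩
  rcases hi with rfl | rfl
  · -- colour `a`
    have hP : ∀ p q, p ≠ q → P (w p) (w q) := by
      intro p q hpq
      have h1 : (if P (w p) (w q) then (0 : Fin 2) else 1) = 0 := h p q hpq
      by_contra h2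
      rw [if_neg h2] at h1
      exact absurd h1 (by decide)
    -- a vertex of class a forces the others in class a
    have hA : ∀ p, m (w p) = a → ∀ q, m (w q) = a := by
      intro p hp q
      by_cases hpq : p = q
      · rw [← hpq]; exact hp
      · rcases hP p q hpq with ⟨-, h2⟩ | ⟨-, h2⟩
        · have h3 := hm (w p) (w q) (fun h => hpq (hw h))
          rw [hp] at h3
          exact absurd h2 h3
        · exact h2
    have hnA : ∀ p, m (w p) ≠ a := by
      intro p hp
      have h1 := hA p hp
      rcases ha _ _ _ (h1 0) (h1 1) (h1 2) with h2 | h2 | h2 <;>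
        exact absurd (hw h2) (by decide)
    obtain ⟨p, q, r, hpq, hpr, hqr, h1, h2, h3⟩ := three (fun p => m (w p) = j) (by
      intro p q hpq h1 h2
      rcases hP p q hpq with ⟨h3 | h3, -⟩ | ⟨h3, -⟩
      · exact h1 h3
      · exact h2 h3
      · exact hnA p h3)
    have hfa : ∀ p q, p ≠ q → f (w p) (w q) = a := by
      intro p q hpq
      rcases hP p q hpq with ⟨-, h3⟩ | ⟨h3, -⟩
      · exact h3
      · exact absurd h3 (hnA p)
    have hyj : ∀ p, m (w p) = j → y ≠ w p := by
      intro p hp h4
      rw [h4, hp] at hy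
      exact hjb hy
    have hya : ∀ p, m (w p) = j → f y (w p) = a := by
      intro p hp
      have h4 := hm y (w p) (hyj p hp)
      have h5 := hm' y (w p) (hyj p hp)
      rw [hy] at h4
      rw [hp] at h5
      exact third hjb hja hab.symm h5 h4
    exact no_tri hf (fun h => hpq (hw h)) (fun h => hpr (hw h)) (fun h => hqr (hw h))
      (hyj p h1) (hyj q h2) (hyj r h3) (hfa p q hpq) (hfa p r hpr) (hfa q r hqr)
      (hya p h1) (hya q h2) (hya r h3)
  · -- colour `b`
    have hP : ∀ p q, p ≠ q → ¬ P (w p) (w q) := by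
      intro p q hpq h2
      have h1 : (if P (w p) (w q) then (0 : Fin 2) else 1) = 1 := h p q hpq
      rw [if_pos h2] at h1
      exact absurd h1 (by decide)
    have hjb' : ∀ p q, m (w p) = b → m (w q) ≠ j := by
      intro p q hp hq
      have hpq : p ≠ q := by
        rintro rfl
        rw [hp] at hq
        exact hjb hq.symm
      apply hP p q hpq
      left
      refine ⟨Or.inr hq, ?_⟩
      have h4 := hm (w p) (w q) (fun h => hpq (hw h))
      have h5 := hm' (w p) (w q) (fun h => hpq (hw h))
      rw [hp] at h4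
      rw [hq] at h5
      exact third hjb hja hab.symm h5 h4
    have haa : ∀ p q, p ≠ q → m (w p) = a → m (w q) = a → False := by
      intro p q hpq hp hq
      exact hP p q hpq (Or.inr ⟨hp, hq⟩)
    have hnB : ∀ p, m (w p) ≠ b := by
      intro p hp
      -- no vertex in class j: at least three in class b
      obtain ⟨p', q', r', hpq, hpr, hqr, h1, h2, h3⟩ := three (fun q => m (w q) = b) (by
        intro q r hqr h1 h2
        have h3 : m (w q) = a := by
          rcases hcl q with h4 | h4 | h4
          · exact absurd h4 (hjb' p q hp)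
          · exact h4
          · exact absurd h4 h1
        have h4 : m (w r) = a := by
          rcases hcl r with h5 | h5 | h5
          · exact absurd h5 (hjb' p r hp)
          · exact h5
          · exact absurd h5 h2
        exact haa q r hqr h3 h4)
      rcases hb _ _ _ h1 h2 h3 with h4 | h4 | h4
      · exact hpq (hw h4)
      · exact hpr (hw h4)
      · exact hqr (hw h4)
    obtain ⟨p, q, r, hpq, hpr, hqr, h1, h2, h3⟩ := three (fun p => m (w p) = j) (by
      intro p q hpq h1 h2
      have h3 : m (w p) = a := by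
        rcases hcl p with h4 | h4 | h4
        · exact absurd h4 h1
        · exact h4
        · exact absurd h4 (hnB p)
      have h4 : m (w q) = a := by
        rcases hcl q with h5 | h5 | h5
        · exact absurd h5 h2
        · exact h5
        · exact absurd h5 (hnB q)
      exact haa p q hpq h3 h4)
    have hfb : ∀ p q, p ≠ q → m (w p) = j → f (w p) (w q) = b := by
      intro p q hpq hp
      have h4 := hm (w p) (w q) (fun h => hpq (hw h))
      rw [hp] at h4
      refine third hja hjb hab h4 fun h5 => ?_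
      exact hP p q hpq (Or.inl ⟨Or.inl hp, h5⟩)
    have hxj : ∀ p, m (w p) = j → x ≠ w p := by
      intro p hp h4
      rw [h4, hp] at hx
      exact hja hx
    have hxb : ∀ p, m (w p) = j → f x (w p) = b := by
      intro p hp
      have h4 := hm x (w p) (hxj p hp)
      have h5 := hm' x (w p) (hxj p hp)
      rw [hx] at h4
      rw [hp] at h5
      exact third hja hjb hab h5 h4
    exact no_tri hf (fun h => hpq (hw h)) (fun h => hpr (hw h)) (fun h => hqr (hw h))
      (hxj p h1) (hxj q h2) (hxj r h3) (hfb p q hpq h1) (hfb p r hpr h1) (hfb q r hqr h2)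
      (hxb p h1) (hxb q h2) (hxb r h3)

/-- Three colours with a missing colour at every vertex: two colours suffice. -/
theorem two_of_three {V : Type} {f : V → V → Fin 3} {m : V → Fin 3} (hf : Good f)
    (hm : ∀ u v, u ≠ v → f u v ≠ m u) : ∃ g : V → V → Fin 2, Good g := by
  classical
  by_cases hne : ∀ j, ∃ v, m v = j
  · -- at most one class has three elements
    have hbig : ∀ x y : Fin 3, x ≠ y →
        ¬ ((∃ u v w, m u = x ∧ m v = x ∧ m w = x ∧ u ≠ v ∧ u ≠ w ∧ v ≠ w) ∧
          ∃ u v w, m u = y ∧ m v = y ∧ m w = y ∧ u ≠ v ∧ u ≠ w ∧ v ≠ w) := by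
      rintro x y hxy ⟨⟨u, v, w, hu, hv, hw, huv, huw, hvw⟩, u', v', w', hu', hv', hw', huv',
        huw', hvw'⟩
      obtain ⟨z, hz1, hz2⟩ := other x y
      obtain ⟨d, hd⟩ := hne z
      obtain ⟨a, b, hab, ha, hb, hfab⟩ := exists_pair hf hm hxy hz1.symm hz2.symm hu hv hw hd
        huv huw hvw
      obtain ⟨a', b', hab', ha', hb', hfab'⟩ := exists_pair hf hm hxy.symm hz2.symm hz1.symm hu'
        hv' hw' hd huv' huw' hvw'
      have hm' : ∀ u v, u ≠ v → f u v ≠ m v := fun u v h => by
        rw [hf.1]
        exact hm v u h.symm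
      have hcross : ∀ s t, m s = x → m t = y → s ≠ t ∧ f s t = z := by
        intro s t hs ht
        have hst : s ≠ t := by
          rintro rfl
          rw [hs] at ht
          exact hxy ht
        refine ⟨hst, ?_⟩
        have h1 := hm s t hst
        have h2 := hm' s t hst
        rw [hs] at h1
        rw [ht] at h2
        exact third hxy hz1.symm hz2.symm h1 h2
      have e1 := hcross a a' ha ha'
      have e2 := hcross a b' ha hb'
      have e3 := hcross b a' hb ha'
      have e4 := hcross b b' hb hb'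
      refine hf.2 z ![a, b, a', b'] ?_ ?_
      · intro p q hpq
        fin_cases p <;> fin_cases q <;> first
          | rfl
          | exact absurd hpq hab
          | exact absurd hpq.symm hab
          | exact absurd hpq hab'
          | exact absurd hpq.symm hab'
          | exact absurd hpq e1.1
          | exact absurd hpq.symm e1.1
          | exact absurd hpq e2.1
          | exact absurd hpq.symm e2.1
          | exact absurd hpq e3.1
          | exact absurd hpq.symm e3.1
          | exact absurd hpq e4.1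
          | exact absurd hpq.symm e4.1
      · intro p q hpq
        fin_cases p <;> fin_cases q <;> first
          | exact absurd rfl hpq
          | exact hfab
          | exact hfab'
          | exact e1.2
          | exact e2.2
          | exact e3.2
          | exact e4.2
          | exact (hf.1 _ _).trans hfab
          | exact (hf.1 _ _).trans hfab'
          | exact (hf.1 _ _).trans e1.2
          | exact (hf.1 _ _).trans e2.2
          | exact (hf.1 _ _).trans e3.2
          | exact (hf.1 _ _).trans e4.2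
    have hsmall : ∀ x : Fin 3, ¬ (∃ u v w, m u = x ∧ m v = x ∧ m w = x ∧ u ≠ v ∧ u ≠ w ∧ v ≠ w) →
        ∀ u v w, m u = x → m v = x → m w = x → u = v ∨ u = w ∨ v = w := by
      intro x hx u v w hu hv hw
      by_contra hcon
      push Not at hcon
      exact hx ⟨u, v, w, hu, hv, hw, hcon.1, hcon.2.1, hcon.2.2⟩
    obtain ⟨v0, h0⟩ := hne 0
    obtain ⟨v1, h1⟩ := hne 1
    obtain ⟨v2, h2⟩ := hne 2
    by_cases c0 : ∃ u v w, m u = 0 ∧ m v = 0 ∧ m w = 0 ∧ u ≠ v ∧ u ≠ w ∧ v ≠ w
    · exact two_of_small hf hm (j := 0) (a := 1) (b := 2) (by decide) (by decide) (by decide)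
        h1 h2 (hsmall 1 fun h => hbig 0 1 (by decide) ⟨c0, h⟩)
        (hsmall 2 fun h => hbig 0 2 (by decide) ⟨c0, h⟩)
    · by_cases c1 : ∃ u v w, m u = 1 ∧ m v = 1 ∧ m w = 1 ∧ u ≠ v ∧ u ≠ w ∧ v ≠ w
      · exact two_of_small hf hm (j := 1) (a := 0) (b := 2) (by decide) (by decide) (by decide)
          h0 h2 (hsmall 0 c0) (hsmall 2 fun h => hbig 1 2 (by decide) ⟨c1, h⟩)
      · exact two_of_small hf hm (j := 2) (a := 0) (b := 1) (by decide) (by decide) (by decide)
          h0 h1 (hsmall 0 c0) (hsmall 1 c1)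
  · push Not at hne
    obtain ⟨j, hj⟩ := hne
    exact two_of_empty hf hm hj

theorem rho_one : rho 1 = 0 := by
  refine Nat.le_zero.1 (Nat.sInf_le ?_)
  have hempty : ∀ e : (⊤ : SimpleGraph (Fin 1)).edgeSet, False := by
    rintro ⟨e, he⟩
    induction e using Sym2.ind with
    | _ x y => exact (SimpleGraph.mem_edgeSet _).1 he (Subsingleton.elim _ _)
  exact ⟨fun e => (hempty e).elim, fun j => j.elim0⟩

theorem no_missing_of_le {n : ℕ} (hn : 1 ≤ n) (h : rho n ≤ 3) :
    ¬ ∃ (f : Fin n → Fin n → Fin (rho n)) (m : Fin n → Fin (rho n)),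
      Good f ∧ ∀ u v, u ≠ v → f u v ≠ m u := by
  rintro ⟨f, m, hf, hm⟩
  have key : ∀ k : ℕ, k ≤ 3 → k = rho n → (∃ (f : Fin n → Fin n → Fin k) (m : Fin n → Fin k),
      Good f ∧ ∀ u v, u ≠ v → f u v ≠ m u) → False := by
    rintro k hk hkn ⟨f, m, hf, hm⟩
    have hm' : ∀ u v, u ≠ v → f u v ≠ m v := fun u v h => by
      rw [hf.1]
      exact hm v u h.symm
    let z : Fin n := ⟨0, hn⟩
    match k, hk, hkn, f, m, hf, hm, hm' with
    | 0, _, _, _, m, _, _, _ => exact (m z).elim0
    | 1, _, hkn, f, m, _, hm, _ =>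
      rcases Nat.lt_or_ge 1 n with h1 | h1
      · have h2 : z ≠ ⟨1, h1⟩ := fun h => absurd (Fin.mk.inj h) (by decide)
        exact hm _ _ h2 (Subsingleton.elim _ _)
      · have : n = 1 := le_antisymm h1 hn
        subst this
        rw [rho_one] at hkn
        exact absurd hkn (by decide)
    | 2, _, hkn, f, m, hf, hm, hm' =>
      have hsame : ∀ u v, m u = m v := by
        intro u v
        by_cases huv : u = v
        · rw [huv]
        · have h1 := hm u v huv
          have h2 := hm' u v huv
          revert h1 h2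
          generalize f u v = x
          generalize m u = y
          generalize m v = t
          revert x y t
          decide
      have hg : Good (fun _ _ : Fin n => (0 : Fin 1)) := by
        refine ⟨fun _ _ => rfl, fun i w hw _ => ?_⟩
        refine hf.2 (m z + 1) w hw fun p q hpq => ?_
        have h1 := hm _ _ (fun h => hpq (hw h) : w p ≠ w q)
        rw [hsame (w p) z] at h1
        revert h1
        generalize f (w p) (w q) = x
        generalize m z = y
        revert x y
        decide
      have h1 := rho_le hg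
      omega
    | 3, _, hkn, f, m, hf, hm, _ =>
      obtain ⟨g, hg⟩ := two_of_three hf hm
      have h1 := rho_le hg
      omega
  exact key _ h rfl ⟨f, m, hf, hm⟩

/-! ### Ramsey's theorem -/

theorem ramsey (k : ℕ) : ∀ (t : ℕ) (s : Fin k → ℕ), ∑ i, s i = t → ∃ N : ℕ,
    ∀ (V : Type) (f : V → V → Fin k), (∀ u v, f u v = f v u) → ∀ A : Finset V, N ≤ A.card →
      ∃ i, ∃ T ⊆ A, T.card = s i ∧ ∀ x ∈ T, ∀ y ∈ T, x ≠ y → f x y = i := by
  classical
  intro t
  induction t with
  | zero =>
    intro s hs
    refine ⟨1, fun V f hf A hA => ?_⟩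
    obtain ⟨v, hv⟩ := Finset.card_pos.1 hA
    refine ⟨f v v, ∅, Finset.empty_subset _, ?_, by simp⟩
    rw [Finset.card_empty]
    exact ((Finset.sum_eq_zero_iff.1 hs) _ (Finset.mem_univ _)).symm
  | succ t ih =>
    intro s hs
    by_cases hz : ∃ i, s i = 0
    · obtain ⟨i, hi⟩ := hz
      exact ⟨0, fun V f hf A _ => ⟨i, ∅, Finset.empty_subset _, by rw [hi]; rfl, by simp⟩⟩
    push Not at hz
    have hstep : ∀ i, ∑ j, Function.update s i (s i - 1) j = t := by
      intro i
      rw [Finset.sum_update_of_mem (Finset.mem_univ i)]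
      have h1 := Finset.add_sum_erase Finset.univ s (Finset.mem_univ i)
      have h2 : (Finset.univ \ {i} : Finset (Fin k)) = Finset.univ.erase i := by
        rw [Finset.sdiff_singleton_eq_erase]
      rw [h2]
      have h3 := hz i
      omega
    choose N hN using fun i => ih _ (hstep i)
    refine ⟨1 + ∑ i, N i, fun V f hf A hA => ?_⟩
    obtain ⟨v, hv⟩ := Finset.card_pos.1 (lt_of_lt_of_le (by omega) hA : 0 < A.card)
    -- the neighbourhoods in the colours
    have hsum : ∑ i, ((A.erase v).filter fun u => f v u = i).card = (A.erase v).card := by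
      rw [← Finset.card_eq_sum_card_fiberwise]
      intro u _
      exact Finset.mem_coe.2 (Finset.mem_univ _)
    rw [Finset.card_erase_of_mem hv] at hsum
    obtain ⟨i, -, hi⟩ : ∃ i ∈ (Finset.univ : Finset (Fin k)),
        N i ≤ ((A.erase v).filter fun u => f v u = i).card := by
      refine Finset.exists_le_of_sum_le ⟨f v v, Finset.mem_univ _⟩ ?_
      omega
    obtain ⟨j, T, hTA, hTc, hT⟩ := hN i V f hf _ hi
    have hTA' : T ⊆ A := fun x hx =>
      Finset.mem_of_mem_erase (Finset.mem_of_mem_filter x (hTA hx))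
    by_cases hij : j = i
    · subst hij
      refine ⟨j, insert v T, Finset.insert_subset hv hTA', ?_, ?_⟩
      · have hvT : v ∉ T := fun h =>
          Finset.notMem_erase v A (Finset.mem_of_mem_filter v (hTA h))
        rw [Finset.card_insert_of_notMem hvT, hTc, Function.update_self]
        have := hz j
        omega
      · intro x hx y hy hxy
        have hc : ∀ u ∈ T, f v u = j := fun u hu => (Finset.mem_filter.1 (hTA hu)).2
        rcases Finset.mem_insert.1 hx with hx' | hx'
        · rcases Finset.mem_insert.1 hy with hy' | hy'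
          · exact absurd (hx'.trans hy'.symm) hxy
          · rw [hx']; exact hc y hy'
        · rcases Finset.mem_insert.1 hy with hy' | hy'
          · rw [hf, hy']; exact hc x hx'
          · exact hT x hx' y hy' hxy
    · refine ⟨j, T, hTA', ?_, hT⟩
      rw [hTc, Function.update_of_ne hij]

/-- `ρ` is unbounded. -/
theorem exists_lt_rho (k : ℕ) : ∃ N, ∀ n, N ≤ n → k < rho n := by
  classical
  obtain ⟨N, hN⟩ := ramsey (k + 1) _ (fun _ => 4) rfl
  refine ⟨max N 1, fun n hn => ?_⟩
  by_contra hle
  push Not at hle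
  obtain ⟨P, hP⟩ := rho_mem n
  have hn1 : 0 < n := lt_of_lt_of_le one_pos ((le_max_right _ _).trans hn)
  -- the colouring
  let f : Fin n → Fin n → Fin (k + 1) := fun u v =>
    if h : u ≠ v then (P (ed h)).castLE (by omega) else 0
  have hf : ∀ u v, f u v = f v u := by
    intro u v
    by_cases h : u = v
    · rw [h]
    · have h' : v ≠ u := fun h' => h h'.symm
      change (if h : u ≠ v then (P (ed h)).castLE _ else 0) =
        if h : v ≠ u then (P (ed h)).castLE _ else (0 : Fin (k + 1))
      rw [dif_pos h, dif_pos h']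
      congr 2
      exact Subtype.ext Sym2.eq_swap
  obtain ⟨i, T, -, hT, hTi⟩ := hN (Fin n) f hf Finset.univ (by
    rw [Finset.card_univ, Fintype.card_fin]
    exact (le_max_left _ _).trans hn)
  let w : Fin 4 → Fin n := T.orderEmbOfFin hT
  have hw : Function.Injective w := (T.orderEmbOfFin hT).injective
  have hwT : ∀ p, w p ∈ T := T.orderEmbOfFin_mem hT
  have key : ∀ p q (hpq : p ≠ q), ((P (ed (fun h => hpq (hw h)))).castLE (by omega) :
      Fin (k + 1)) = i := by
    intro p q hpq
    have h1 : (if h : w p ≠ w q then (P (ed h)).castLE _ else (0 : Fin (k + 1))) = i :=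
      hTi _ (hwT p) _ (hwT q) (fun h => hpq (hw h))
    rw [dif_pos (fun h => hpq (hw h))] at h1
    exact h1
  refine good_of_partition P hP (P (ed (fun h => absurd (hw h) (by decide) : w 0 ≠ w 1))) w hw
    fun p q hpq => ?_
  have h1 := (key p q hpq).trans (key 0 1 (by decide)).symm
  exact Fin.castLE_injective _ h1

/-- `ρ` is monotone. -/
theorem rho_mono {m n : ℕ} (h : m ≤ n) : rho m ≤ rho n := by
  obtain ⟨P, hP⟩ := rho_mem n
  have hinj : Function.Injective (Fin.castLE h) := Fin.castLE_injective h
  refine Nat.sInf_le ⟨fun e => P ⟨e.1.map (Fin.castLE h), ?_⟩, fun j s hs => ?_⟩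
  · obtain ⟨e, he⟩ := e
    induction e using Sym2.ind with
    | _ x y =>
      rw [Sym2.map_mk, SimpleGraph.mem_edgeSet]
      exact fun h' => (SimpleGraph.mem_edgeSet _).1 he (hinj h')
  · refine hP j (s.map ⟨_, hinj⟩) ⟨?_, ?_⟩
    · intro x hx y hy hxy
      obtain ⟨x, hx', rfl⟩ := Finset.mem_map.1 (Finset.mem_coe.1 hx)
      obtain ⟨y, hy', rfl⟩ := Finset.mem_map.1 (Finset.mem_coe.1 hy)
      have hxy' : x ≠ y := fun h => hxy (by rw [h])
      have h1 := hs.isClique (Finset.mem_coe.2 hx') (Finset.mem_coe.2 hy') hxy'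
      rw [SimpleGraph.fromEdgeSet_adj] at h1 ⊢
      obtain ⟨⟨e, he, he'⟩, -⟩ := h1
      refine ⟨⟨_, he, ?_⟩, hxy⟩
      change e.1.map (Fin.castLE h) = _
      rw [he']
      rfl
    · rw [Finset.card_map]
      exact hs.card_eq

/-! ### at most two classes -/

theorem rho_le_of_two {n k : ℕ} {f : Fin n → Fin n → Fin k} {m : Fin n → Fin k} (hf : Good f)
    (hm : ∀ u v, u ≠ v → f u v ≠ m u) {x y : Fin k} (hxy : x ≠ y)
    (h : ∀ v, m v = x ∨ m v = y) : rho n ≤ k - 1 := by
  classical
  have hm' : ∀ u v, u ≠ v → f u v ≠ m v := fun u v h => by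
    rw [hf.1]
    exact hm v u h.symm
  have hcard : Fintype.card {a : Fin k // a ≠ y} = k - 1 := by
    rw [Fintype.card_subtype_compl, Fintype.card_fin, Fintype.card_subtype_eq]
  let e : {a : Fin k // a ≠ y} ≃ Fin (k - 1) := Fintype.equivFinOfCardEq hcard
  let r : Fin k → {a : Fin k // a ≠ y} := fun a => if h : a = y then ⟨x, hxy⟩ else ⟨a, h⟩
  have hr1 : ∀ a, a ≠ y → (r a).1 = a := fun a ha => by
    change (if h : a = y then (⟨x, hxy⟩ : {a : Fin k // a ≠ y}) else ⟨a, h⟩).1 = a
    rw [dif_neg ha]
  have hr2 : (r y).1 = x := by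
    change (if h : y = y then (⟨x, hxy⟩ : {a : Fin k // a ≠ y}) else ⟨y, h⟩).1 = x
    rw [dif_pos rfl]
  refine rho_le (f := fun u v => e (r (f u v))) ⟨fun u v => by
    change e (r (f u v)) = e (r (f v u))
    rw [hf.1], fun i w hw hi => ?_⟩
  have hri : ∀ p q, p ≠ q → (r (f (w p) (w q))).1 = (e.symm i).1 := by
    intro p q hpq
    have h1 : e (r (f (w p) (w q))) = i := hi p q hpq
    rw [← h1, e.symm_apply_apply]
  by_cases hix : (e.symm i).1 = x
  · -- the merged colour
    have hfxy : ∀ p q, p ≠ q → f (w p) (w q) = x ∨ f (w p) (w q) = y := by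
      intro p q hpq
      by_cases h1 : f (w p) (w q) = y
      · exact Or.inr h1
      · left
        rw [← hr1 _ h1, hri p q hpq, hix]
    have hsame : ∀ p q, p ≠ q → m (w p) = m (w q) := by
      intro p q hpq
      have hne : w p ≠ w q := fun h => hpq (hw h)
      have h1 := hm _ _ hne
      have h2 := hm' _ _ hne
      rcases h (w p) with h3 | h3 <;> rcases h (w q) with h4 | h4
      · rw [h3, h4]
      · rw [h3] at h1
        rw [h4] at h2
        rcases hfxy p q hpq with h5 | h5
        · exact absurd h5 h1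
        · exact absurd h5 h2
      · rw [h3] at h1
        rw [h4] at h2
        rcases hfxy p q hpq with h5 | h5
        · exact absurd h5 h2
        · exact absurd h5 h1
      · rw [h3, h4]
    have hall : ∀ p, m (w p) = m (w 0) := by
      intro p
      by_cases h : p = 0
      · rw [h]
      · exact hsame p 0 h
    rcases h (w 0) with h0 | h0
    · refine hf.2 y w hw fun p q hpq => (hfxy p q hpq).resolve_left fun h1 => ?_
      have h2 := hm _ _ (fun h => hpq (hw h) : w p ≠ w q)
      rw [hall p, h0] at h2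
      exact h2 h1
    · refine hf.2 x w hw fun p q hpq => (hfxy p q hpq).resolve_right fun h1 => ?_
      have h2 := hm _ _ (fun h => hpq (hw h) : w p ≠ w q)
      rw [hall p, h0] at h2
      exact h2 h1
  · refine hf.2 (e.symm i).1 w hw fun p q hpq => ?_
    have h1 := hri p q hpq
    by_cases h2 : f (w p) (w q) = y
    · rw [h2, hr2] at h1
      exact absurd h1.symm hix
    · rw [hr1 _ h2] at h1
      exact h1

/-- A colouring with `ρ(n)` colours has at least three colours on the original vertices. -/
theorem three_le {n : ℕ} (hn : 1 ≤ n)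
    (c : Fin n ⊕ (⊤ : SimpleGraph (Fin n)).edgeSet → Fin (rho n))
    (hc : ∀ i, IsIMV (subdiv (⊤ : SimpleGraph (Fin n))) {v | c v = i}) :
    3 ≤ (Set.range fun v : Fin n => c (Sum.inl v)).ncard := by
  classical
  obtain ⟨f, hf, hm⟩ := exists_missing' c hc
  by_contra hcon
  push Not at hcon
  let z : Fin n := ⟨0, hn⟩
  set S := Set.range fun v : Fin n => c (Sum.inl v) with hS
  have hzS : c (Sum.inl z) ∈ S := ⟨z, rfl⟩
  -- two colours containing the range
  obtain ⟨y, hy⟩ : ∃ y, ∀ v : Fin n, c (Sum.inl v) = c (Sum.inl z) ∨ c (Sum.inl v) = y := by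
    by_contra hno
    push Not at hno
    obtain ⟨v, hv1, -⟩ := hno (c (Sum.inl z))
    obtain ⟨u, hu1, hu2⟩ := hno (c (Sum.inl v))
    have h1 : ({c (Sum.inl z), c (Sum.inl v), c (Sum.inl u)} : Set (Fin (rho n))).ncard = 3 :=
      Set.ncard_eq_three.2 ⟨_, _, _, hv1.symm, hu1.symm, hu2.symm, rfl⟩
    have h2 : ({c (Sum.inl z), c (Sum.inl v), c (Sum.inl u)} : Set (Fin (rho n))).ncard ≤
        S.ncard := by
      refine Set.ncard_le_ncard ?_ (Set.toFinite _)
      rintro _ (rfl | rfl | rfl)
      · exact ⟨z, rfl⟩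
      · exact ⟨v, rfl⟩
      · exact ⟨u, rfl⟩
    omega
  have hpos : 0 < rho n := (c (Sum.inl z)).pos
  by_cases hyz : y = c (Sum.inl z)
  · -- one class: some other colour, or one colour only
    have hall : ∀ v : Fin n, c (Sum.inl v) = c (Sum.inl z) := fun v => by
      rcases hy v with h | h
      · exact h
      · rw [h, hyz]
    by_cases h1 : ∃ y', y' ≠ c (Sum.inl z)
    · obtain ⟨y', hy'⟩ := h1
      have := rho_le_of_two hf hm hy'.symm (fun v => Or.inl (hall v))
      omega
    · push Not at h1
      -- only one colour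
      rcases Nat.lt_or_ge 1 n with h2 | h2
      · have h3 : z ≠ ⟨1, h2⟩ := fun h => absurd (Fin.mk.inj h) (by decide)
        exact hm _ _ h3 (h1 _)
      · have : n = 1 := le_antisymm h2 hn
        subst this
        rw [rho_one] at hpos
        exact lt_irrefl _ hpos
  · have := rho_le_of_two hf hm (fun h => hyz h.symm) hy
    omega

/-- **Main theorem.** -/
theorem main :
    (∀ n : ℕ, 1 ≤ n → rho n ≤ 3 →
      chiIMV (subdiv (⊤ : SimpleGraph (Fin n))) = rho n + 1) ∧
    (∀ k : ℕ, ∃ b : ℕ, 1 ≤ b ∧ (∀ n, 1 ≤ n → (rho n ≤ k ↔ n ≤ b)) ∧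
      ∀ n, b < 3 * n → n ≤ b →
        chiIMV (subdiv (⊤ : SimpleGraph (Fin n))) = rho n + 1) ∧
    (∀ n : ℕ, 1 ≤ n → ∀ c : Fin n ⊕ (⊤ : SimpleGraph (Fin n)).edgeSet → Fin (rho n),
      (∀ i, IsIMV (subdiv (⊤ : SimpleGraph (Fin n))) {v | c v = i}) →
        3 ≤ (Set.range fun v : Fin n => c (Sum.inl v)).ncard) := by
  classical
  refine ⟨fun n hn h => chi_eq n (no_missing_of_le hn h), fun k => ?_,
    fun n hn c hc => three_le hn c hc⟩
  obtain ⟨N, hN⟩ := exists_lt_rho k
  -- the largest number with `ρ ≤ k`
  have hex : ∃ b, ¬ (rho (b + 1) ≤ k) := ⟨N, not_le.2 (hN _ (Nat.le_succ N))⟩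
  set b := Nat.find hex with hb
  have hb1 : ¬ rho (b + 1) ≤ k := Nat.find_spec hex
  have hb2 : ∀ m, m < b → rho (m + 1) ≤ k := fun m hm => not_not.1 (Nat.find_min hex hm)
  have hiff : ∀ n, 1 ≤ n → (rho n ≤ k ↔ n ≤ b) := by
    intro n hn
    obtain ⟨m, rfl⟩ : ∃ m, n = m + 1 := ⟨n - 1, by omega⟩
    constructor
    · intro h
      by_contra h2
      push Not at h2
      exact hb1 ((rho_mono (by omega)).trans h)
    · intro h
      exact hb2 m (by omega)
  have hbpos : 1 ≤ b := (hiff 1 le_rfl).1 (by rw [rho_one]; exact Nat.zero_le _)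
  refine ⟨b, hbpos, hiff, fun n h1 h2 => ?_⟩
  refine chi_eq n (no_missing_of_lt ?_)
  have hn : 1 ≤ n := by omega
  have h3 : rho n ≤ k := (hiff n hn).2 h2
  have h4 : ¬ rho (3 * n) ≤ k := fun h => absurd ((hiff (3 * n) (by omega)).1 h) (by omega)
  omega

end Pool.Agent.IMV
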